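import Mathlib
import Pool.Agent.Q117.K3t.Tensor

set_option autoImplicit false

open Filter Topology

namespace Pool.Agent.Results.MP_14d42b_co.TensorPowers

/-- The assertion of the open problem for one value of `t`: there are a constant `k₀` and a
function `ε(n) → 0` such that every `n`-vertex graph `G` with `k n ^ 2` triangles, `k > 0` and
`k ≥ k₀`, contains at least `k ^ t * n ^ (3 - ε(n))` copies of `K_{3,t}`.
(`G.copyCount H` is the number of subgraphs of `G` isomorphic to `H`.) -/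
def Supersaturation (t : ℕ) : Prop :=
  ∃ (k₀ : ℝ) (ε : ℕ → ℝ), Tendsto ε atTop (𝓝 0) ∧
    ∀ (V : Type) [Fintype V] (G : SimpleGraph V) (k : ℝ), 0 < Fintype.card V → 0 < k → k₀ ≤ k →
      (G.copyCount (⊤ : SimpleGraph (Fin 3)) : ℝ) = k * (Fintype.card V : ℝ) ^ 2 →
      k ^ t * (Fintype.card V : ℝ) ^ (3 - ε (Fintype.card V)) ≤
        (G.copyCount (completeBipartiteGraph (Fin 3) (Fin t)) : ℝ)

/-- For every `t ≥ 3` the supersaturation conjecture fails, and it fails by a power of `n`: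
there is `δ > 0` such that for every `k₀` and `n₀` there is a graph with `n ≥ n₀` vertices and
`k n ^ 2` triangles, `k ≥ k₀`, `k > 0`, which has fewer than `k ^ t * n ^ (3 - δ)` copies of
`K_{3,t}`. -/
theorem result : ∀ t : ℕ, 3 ≤ t →
    (∃ δ : ℝ, 0 < δ ∧ ∀ (k₀ : ℝ) (n₀ : ℕ), ∃ (V : Type) (_ : Fintype V) (G : SimpleGraph V)
      (k : ℝ), n₀ ≤ Fintype.card V ∧ k₀ ≤ k ∧ 0 < k ∧
      (G.copyCount (⊤ : SimpleGraph (Fin 3)) : ℝ) = k * (Fintype.card V : ℝ) ^ 2 ∧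
      (G.copyCount (completeBipartiteGraph (Fin 3) (Fin t)) : ℝ) <
        k ^ t * (Fintype.card V : ℝ) ^ (3 - δ)) ∧
    ¬ Supersaturation t := by
  intro t ht
  have main : ∃ δ : ℝ, 0 < δ ∧ ∀ (k₀ : ℝ) (n₀ : ℕ), ∃ (V : Type) (_ : Fintype V)
      (G : SimpleGraph V) (k : ℝ), n₀ ≤ Fintype.card V ∧ k₀ ≤ k ∧ 0 < k ∧
      (G.copyCount (⊤ : SimpleGraph (Fin 3)) : ℝ) = k * (Fintype.card V : ℝ) ^ 2 ∧
      (G.copyCount (completeBipartiteGraph (Fin 3) (Fin t)) : ℝ) <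
        k ^ t * (Fintype.card V : ℝ) ^ (3 - δ) := by
    obtain ⟨N, hN, R, hR, hB, hA⟩ := Q117.K3t.exists_rel t (by omega)
    have h2 : 2 ≤ Fintype.card (Bool × Fin N) := by
      rw [Fintype.card_prod, Fintype.card_bool, Fintype.card_fin]
      omega
    obtain ⟨δ, hδ, h⟩ := Q117.K3t.amplify t R hR h2 hB (by omega) hA
    refine ⟨δ, hδ, fun k₀ n₀ => ?_⟩
    obtain ⟨m, hm, k, hk₀, hk, h3, h4⟩ := h k₀ n₀
    exact ⟨_, inferInstance, Q117.K3t.TG R hR m, k, hm, hk₀, hk, h3, h4⟩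
  refine ⟨main, ?_⟩
  rintro ⟨k₀, ε, hε, hall⟩
  obtain ⟨δ, hδ, h⟩ := main
  obtain ⟨n₁, hn₁⟩ := eventually_atTop.1 (hε.eventually_lt_const hδ)
  obtain ⟨V, hV, G, k, hn, hk₀, hk, h3, h4⟩ := h k₀ (max n₁ 1)
  have hn1 : 1 ≤ Fintype.card V := le_trans (le_max_right _ _) hn
  have h5 := hall V G k hn1 hk hk₀ h3
  have h6 := hn₁ (Fintype.card V) (le_trans (le_max_left _ _) hn)
  have h7 : (Fintype.card V : ℝ) ^ (3 - δ) ≤ (Fintype.card V : ℝ) ^ (3 - ε (Fintype.card V)) := by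
    apply Real.rpow_le_rpow_of_exponent_le
    · exact_mod_cast hn1
    · linarith
  have h8 : k ^ t * (Fintype.card V : ℝ) ^ (3 - δ) ≤
      k ^ t * (Fintype.card V : ℝ) ^ (3 - ε (Fintype.card V)) :=
    mul_le_mul_of_nonneg_left h7 (by positivity)
  linarith

end Pool.Agent.Results.MP_14d42b_co.TensorPowers
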